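import Pool.Agent.helper36.BP.SpecD

/-! Project bp (MP_ad8ced_nt), row MVH: the mean value theorem over the frequencies. -/

set_option autoImplicit false

open Finset
open Pool.Agent.FI Pool.Agent.HK
open Pool.Agent.CH (nit rgh ll2)
open Pool.Agent.SK (tr0 Th)

noncomputable section

namespace Pool.Agent.BP

/-! ## the Fejer kernel -/

private theorem MVH_id {ι : Type*} (S : Finset ι) (θ : ι → ℝ) (a : ι → ℂ) (N : ℕ) :
    ((∑ m ∈ Icc (-(N : ℤ)) N, (1 - |(m : ℝ)| / N) *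
      ‖∑ v ∈ S, a v * Complex.exp (((2 * Real.pi * m * θ v : ℝ) : ℂ) * Complex.I)‖ ^ 2 : ℝ) : ℂ) =
    ∑ v ∈ S, ∑ w ∈ S, a v * (starRingEnd ℂ) (a w) * fjk N (θ v - θ w) := by
  have h1 : ∀ m : ℤ,
      ((‖∑ v ∈ S, a v * Complex.exp (((2 * Real.pi * m * θ v : ℝ) : ℂ) * Complex.I)‖ ^ 2 : ℝ) : ℂ) =
      ∑ v ∈ S, ∑ w ∈ S, a v * (starRingEnd ℂ) (a w) *
        Complex.exp (((2 * Real.pi * m * (θ v - θ w) : ℝ) : ℂ) * Complex.I) := by
    intro m
    rw [Complex.ofReal_pow, ← Complex.mul_conj', map_sum, Finset.sum_mul_sum]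
    refine Finset.sum_congr rfl fun v _ => Finset.sum_congr rfl fun w _ => ?_
    rw [map_mul, ← Complex.exp_conj, map_mul, Complex.conj_ofReal, Complex.conj_I]
    have h2 : ((2 * Real.pi * m * (θ v - θ w) : ℝ) : ℂ) * Complex.I =
        ((2 * Real.pi * m * θ v : ℝ) : ℂ) * Complex.I + ((2 * Real.pi * m * θ w : ℝ) : ℂ) * -Complex.I := by
      push_cast
      ring
    rw [h2, Complex.exp_add]
    ring
  rw [Complex.ofReal_sum]
  unfold fjk
  simp_rw [Complex.ofReal_mul (1 - _), h1, Finset.mul_sum]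
  rw [Finset.sum_comm]
  refine Finset.sum_congr rfl fun v _ => ?_
  rw [Finset.sum_comm]
  refine Finset.sum_congr rfl fun w _ => Finset.sum_congr rfl fun m _ => ?_
  ring

private theorem MVH_fejer (hFJB : FJB_stmt) {ι : Type*} (S : Finset ι) (θ : ι → ℝ) (a : ι → ℂ)
    (K : ℕ) (hK : 1 ≤ K) :
    ∑ m ∈ Icc (-(K : ℤ)) K,
      ‖∑ v ∈ S, a v * Complex.exp (((2 * Real.pi * m * θ v : ℝ) : ℂ) * Complex.I)‖ ^ 2 ≤
    2 * ∑ v ∈ S, ‖a v‖ ^ 2 * ∑ w ∈ S, (fjk (2 * K) (θ w - θ v)).re := by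
  obtain ⟨hF, -, -⟩ := hFJB (2 * K) (by omega)
  have hK0 : (0 : ℝ) < K := by exact_mod_cast hK
  obtain ⟨X, hX⟩ : ∃ X : ℤ → ℝ, X = fun m : ℤ =>
    ‖∑ v ∈ S, a v * Complex.exp (((2 * Real.pi * m * θ v : ℝ) : ℂ) * Complex.I)‖ ^ 2 := ⟨_, rfl⟩
  have hX0 : ∀ m, 0 ≤ X m := by
    intro m
    rw [hX]
    positivity
  have h1 : ∑ m ∈ Icc (-(K : ℤ)) K, X m ≤
      2 * ∑ m ∈ Icc (-((2 * K : ℕ) : ℤ)) ((2 * K : ℕ) : ℤ), (1 - |(m : ℝ)| / ((2 * K : ℕ) : ℝ)) * X m := by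
    rw [Finset.mul_sum]
    have hsub : Icc (-(K : ℤ)) K ⊆ Icc (-((2 * K : ℕ) : ℤ)) ((2 * K : ℕ) : ℤ) := by
      intro m hm
      rw [Finset.mem_Icc] at hm ⊢
      push_cast
      omega
    have hcast : ((2 * K : ℕ) : ℝ) = 2 * (K : ℝ) := by push_cast; ring
    refine (Finset.sum_le_sum fun m hm => ?_).trans
      (Finset.sum_le_sum_of_subset_of_nonneg hsub fun m hm _ => ?_)
    · rw [Finset.mem_Icc] at hm
      have h2 : |(m : ℝ)| ≤ K := by
        rw [abs_le]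
        constructor
        · exact_mod_cast hm.1
        · exact_mod_cast hm.2
      have h3 : |(m : ℝ)| / ((2 * K : ℕ) : ℝ) ≤ 1 / 2 := by
        rw [hcast, div_le_div_iff₀ (by positivity) (by norm_num)]
        linarith
      nlinarith [hX0 m]
    · rw [Finset.mem_Icc] at hm
      have h2 : |(m : ℝ)| ≤ ((2 * K : ℕ) : ℝ) := by
        rw [abs_le]
        constructor
        · exact_mod_cast hm.1
        · exact_mod_cast hm.2
      have h3 : |(m : ℝ)| / ((2 * K : ℕ) : ℝ) ≤ 1 := div_le_one_of_le₀ h2 (Nat.cast_nonneg _)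
      have := hX0 m
      have h4 : 0 ≤ (1 - |(m : ℝ)| / ((2 * K : ℕ) : ℝ)) := by linarith
      positivity
  have h2 := MVH_id S θ a (2 * K)
  have hn : ∀ u : ℝ, ‖fjk (2 * K) u‖ = (fjk (2 * K) u).re := by
    intro u
    obtain ⟨g1, g2, -, -, -⟩ := hF u
    have : fjk (2 * K) u = (((fjk (2 * K) u).re : ℝ) : ℂ) := by
      apply Complex.ext
      · rw [Complex.ofReal_re]
      · rw [Complex.ofReal_im, g1]
    rw [this, Complex.norm_real, Real.norm_of_nonneg g2, Complex.ofReal_re]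
  have hev : ∀ u : ℝ, (fjk (2 * K) (-u)).re = (fjk (2 * K) u).re := by
    intro u
    rw [(hF u).2.2.2.2]
  have h3 : ∑ m ∈ Icc (-((2 * K : ℕ) : ℤ)) ((2 * K : ℕ) : ℤ), (1 - |(m : ℝ)| / ((2 * K : ℕ) : ℝ)) * X m ≤
      ∑ v ∈ S, ∑ w ∈ S, ‖a v‖ * ‖a w‖ * (fjk (2 * K) (θ v - θ w)).re := by
    have h4 : ∑ m ∈ Icc (-((2 * K : ℕ) : ℤ)) ((2 * K : ℕ) : ℤ),
        (1 - |(m : ℝ)| / ((2 * K : ℕ) : ℝ)) * X m ≤
        ‖∑ v ∈ S, ∑ w ∈ S, a v * (starRingEnd ℂ) (a w) * fjk (2 * K) (θ v - θ w)‖ := by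
      rw [← h2, hX, Complex.norm_real]
      exact Real.le_norm_self _
    refine h4.trans ((norm_sum_le _ _).trans (Finset.sum_le_sum fun v _ =>
      (norm_sum_le _ _).trans (Finset.sum_le_sum fun w _ => ?_)))
    rw [norm_mul, norm_mul, hn, RCLike.norm_conj]
  have h5 : ∑ v ∈ S, ∑ w ∈ S, ‖a v‖ * ‖a w‖ * (fjk (2 * K) (θ v - θ w)).re ≤
      ∑ v ∈ S, ∑ w ∈ S, (‖a v‖ ^ 2 / 2 * (fjk (2 * K) (θ w - θ v)).re +
        ‖a w‖ ^ 2 / 2 * (fjk (2 * K) (θ v - θ w)).re) := by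
    refine Finset.sum_le_sum fun v _ => Finset.sum_le_sum fun w _ => ?_
    have e1 : (fjk (2 * K) (θ w - θ v)).re = (fjk (2 * K) (θ v - θ w)).re := by
      rw [← neg_sub (θ v) (θ w), hev]
    rw [e1, ← add_mul]
    refine mul_le_mul_of_nonneg_right ?_ (hF _).2.1
    nlinarith [sq_nonneg (‖a v‖ - ‖a w‖)]
  have h6 : ∑ v ∈ S, ∑ w ∈ S, (‖a v‖ ^ 2 / 2 * (fjk (2 * K) (θ w - θ v)).re +
        ‖a w‖ ^ 2 / 2 * (fjk (2 * K) (θ v - θ w)).re) =
      ∑ v ∈ S, ‖a v‖ ^ 2 * ∑ w ∈ S, (fjk (2 * K) (θ w - θ v)).re := by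
    have e1 : ∑ v ∈ S, ∑ w ∈ S, ‖a w‖ ^ 2 / 2 * (fjk (2 * K) (θ v - θ w)).re =
        ∑ v ∈ S, ∑ w ∈ S, ‖a v‖ ^ 2 / 2 * (fjk (2 * K) (θ w - θ v)).re := Finset.sum_comm
    simp_rw [Finset.sum_add_distrib]
    rw [e1, ← Finset.sum_add_distrib]
    refine Finset.sum_congr rfl fun v _ => ?_
    rw [← Finset.mul_sum, ← add_mul, add_halves]
  have h7 : ∑ m ∈ Icc (-(K : ℤ)) K, X m ≤
      2 * ∑ v ∈ S, ‖a v‖ ^ 2 * ∑ w ∈ S, (fjk (2 * K) (θ w - θ v)).re := by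
    rw [← h6]
    linarith
  rw [hX] at h7
  exact h7

/-! ## dyadic decomposition -/

private theorem MVH_dy (A B K δ F : ℝ) (hK : 0 < K) (hA : 0 ≤ A) (hB2 : 2 ≤ B) (hBA : 4 * A ≤ B)
    (h1 : F ≤ 2 * K) (h2 : 0 < δ → F ≤ A / (K * δ ^ 2)) (n : ℕ) :
    F ≤ ∑ s ∈ range (n + 1), (if δ ≤ 2 ^ s / K then B * K / 4 ^ s else 0) +
      (if 2 ^ n / K < δ then A / (K * δ ^ 2) else 0) := by
  induction n with
  | zero =>
    rw [zero_add, Finset.sum_range_one, pow_zero, pow_zero, div_one]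
    by_cases h : δ ≤ 1 / K
    · rw [if_pos h, if_neg (not_lt.2 h), add_zero]
      nlinarith
    · rw [if_neg h, if_pos (not_le.1 h), zero_add]
      exact h2 (lt_trans (by positivity) (not_le.1 h))
  | succ n ih =>
    rw [Finset.sum_range_succ, add_assoc]
    refine ih.trans (add_le_add le_rfl ?_)
    by_cases h : 2 ^ n / K < δ
    · rw [if_pos h]
      have hδ : 0 < δ := lt_trans (by positivity) h
      by_cases h' : δ ≤ 2 ^ (n + 1) / K
      · rw [if_pos h', if_neg (not_lt.2 h'), add_zero]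
        have h3 : (2 ^ n / K) ^ 2 ≤ δ ^ 2 := pow_le_pow_left₀ (by positivity) h.le 2
        have h4 : A / (K * δ ^ 2) ≤ A / (K * (2 ^ n / K) ^ 2) :=
          div_le_div_of_nonneg_left hA (by positivity) (by gcongr)
        have h5 : A / (K * (2 ^ n / K) ^ 2) = 4 * A * K / 4 ^ (n + 1) := by
          have : ((4 : ℝ)) ^ n = (2 ^ n) ^ 2 := by
            rw [← pow_mul, mul_comm, pow_mul]; norm_num
          rw [pow_succ (4 : ℝ), this]
          field_simp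
        rw [h5] at h4
        refine h4.trans ?_
        gcongr
      · rw [if_neg h', if_pos (not_le.1 h'), zero_add]
    · rw [if_neg h]
      have h3 : 0 ≤ (if δ ≤ 2 ^ (n + 1) / K then B * K / 4 ^ (n + 1) else 0) := by
        split_ifs
        · positivity
        · exact le_rfl
      have h4 : 0 ≤ (if 2 ^ (n + 1) / K < δ then A / (K * δ ^ 2) else 0) := by
        split_ifs
        · positivity
        · exact le_rfl
      linarith

private theorem MVH_lep : 0 < lep := by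
  unfold lep
  refine Real.log_pos ?_
  have : 0 ≤ √(8 : ℝ) := Real.sqrt_nonneg _
  linarith

open scoped Classical in
/-- one shift -/
private theorem MVH_shift (hFJB : FJB_stmt) (hFFC : FFC_stmt) {C₁ : ℝ} (hC₁ : 0 < C₁) (M K : ℕ)
    (hM : 1 ≤ M) (hK : 1 ≤ K) (v : ℤ × ℤ) (R : ℝ) (hR : 0 ≤ R) (k : ℤ) (hk : |k| ≤ 1)
    (hCL : ∀ ρ : ℝ, 0 ≤ ρ → ρ ≤ 1 →
      (#{w ∈ FF M | (N8 w).sign = (N8 v).sign ∧ |yy w - yy v - 2 * k * lep| ≤ ρ} : ℝ) ≤
        C₁ * (ρ * M + R))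
    (S : Finset (ℤ × ℤ)) (hS : S ⊆ FF M) (hsg : ∀ w ∈ S, (N8 w).sign = (N8 v).sign)
    (hhalf : ∀ w ∈ S, |yy w / (2 * lep) - yy v / (2 * lep) - k| ≤ 1 / 2) :
    ∑ w ∈ S, (fjk (2 * K) (yy w / (2 * lep) - yy v / (2 * lep))).re ≤
      (2 + 2 * lep ^ 2) * (2 * C₁ + 25) * (M + K * R) := by
  have hl := MVH_lep
  have hK0 : (0 : ℝ) < K := by exact_mod_cast hK
  have hK1 : (1 : ℝ) ≤ K := by exact_mod_cast hK
  have hM0 : (0 : ℝ) < M := by exact_mod_cast hM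
  obtain ⟨B, hB⟩ : ∃ B, B = 2 + 2 * lep ^ 2 := ⟨_, rfl⟩
  have hB2 : 2 ≤ B := by rw [hB]; nlinarith
  obtain ⟨n, hn⟩ : ∃ n, n = Nat.log 2 K := ⟨_, rfl⟩
  have hn1 : (2 : ℝ) ^ n ≤ K := by
    have := Nat.pow_log_le_self 2 (show K ≠ 0 by omega)
    rw [← hn] at this
    exact_mod_cast this
  have hn2 : (K : ℝ) < 2 ^ (n + 1) := by
    have := Nat.lt_pow_succ_log_self (b := 2) (by norm_num) K
    rw [← hn] at this
    exact_mod_cast this
  obtain ⟨hF, hF2, -⟩ := hFJB (2 * K) (by omega)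
  have hper : ∀ u : ℝ, fjk (2 * K) (u - k) = fjk (2 * K) u := by
    intro u
    have h1 : k = -1 ∨ k = 0 ∨ k = 1 := by
      rw [abs_le] at hk
      omega
    rcases h1 with rfl | rfl | rfl
    · have := (hF u).2.2.2.1
      rw [← this]
      congr 1
      push_cast
      ring
    · push_cast
      rw [sub_zero]
    · have := (hF (u - 1)).2.2.2.1
      rw [sub_add_cancel] at this
      rw [this]
      push_cast
      rfl
  obtain ⟨δ, hδ⟩ : ∃ δ : ℤ × ℤ → ℝ, δ = fun w => |yy w - yy v - 2 * k * lep| := ⟨_, rfl⟩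
  have hone : ∀ w ∈ S, (fjk (2 * K) (yy w / (2 * lep) - yy v / (2 * lep))).re ≤
      ∑ s ∈ range (n + 1), (if δ w ≤ 2 ^ s / K then B * K / 4 ^ s else 0) + B / K := by
    intro w hw
    obtain ⟨u, hu⟩ : ∃ u, u = yy w / (2 * lep) - yy v / (2 * lep) - k := ⟨_, rfl⟩
    have hu1 : |u| ≤ 1 / 2 := by rw [hu]; exact hhalf w hw
    have hue : δ w = 2 * lep * |u| := by
      rw [hδ]
      dsimp only
      have : yy w - yy v - 2 * k * lep = 2 * lep * u := by
        rw [hu]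
        field_simp
      rw [this, abs_mul, abs_of_pos (by positivity)]
    have h1 : (fjk (2 * K) (yy w / (2 * lep) - yy v / (2 * lep))).re ≤ 2 * K := by
      have := (hF (yy w / (2 * lep) - yy v / (2 * lep))).2.2.1
      push_cast at this
      exact this
    have h2 : 0 < δ w → (fjk (2 * K) (yy w / (2 * lep) - yy v / (2 * lep))).re ≤
        (lep ^ 2 / 2) / (K * δ w ^ 2) := by
      intro h
      have hu0 : 0 < |u| := by
        rw [hue] at h
        rcases (abs_nonneg u).eq_or_lt with h0 | h0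
        · rw [← h0, mul_zero] at h
          exact absurd h (lt_irrefl _)
        · exact h0
      have h3 := hF2 u hu0 hu1
      rw [hu, hper, ← hu] at h3
      refine h3.trans (le_of_eq ?_)
      rw [hue, mul_pow, sq_abs]
      have hune : u ≠ 0 := fun h0 => by rw [h0, abs_zero] at hu0; exact lt_irrefl _ hu0
      push_cast
      field_simp
      ring
    have h3 := MVH_dy (lep ^ 2 / 2) B K (δ w) _ hK0 (by positivity) hB2
      (by rw [hB]; linarith) h1 h2 n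
    refine h3.trans (add_le_add le_rfl ?_)
    split_ifs with h
    · have h4 : 1 / 2 < δ w := by
        refine lt_trans ?_ h
        rw [div_lt_div_iff₀ (by norm_num) hK0, one_mul, ← pow_succ]
        exact hn2
      rw [div_le_div_iff₀ (by positivity) hK0]
      have h5 : (1 / 2 : ℝ) ^ 2 ≤ δ w ^ 2 := pow_le_pow_left₀ (by norm_num) h4.le 2
      have h6 : 2 * lep ^ 2 * (1 / 2 : ℝ) ^ 2 ≤ B * δ w ^ 2 := by
        refine mul_le_mul ?_ h5 (by norm_num) (by linarith)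
        rw [hB]; linarith
      have h7 : lep ^ 2 / 2 ≤ B * δ w ^ 2 := by linarith
      calc lep ^ 2 / 2 * K ≤ (B * δ w ^ 2) * K := mul_le_mul_of_nonneg_right h7 hK0.le
        _ = B * (K * δ w ^ 2) := by ring
    · positivity
  have hcard : ∀ s ∈ range (n + 1), ∑ w ∈ S, (if δ w ≤ 2 ^ s / K then B * K / 4 ^ s else 0) ≤
      B * C₁ * M * (1 / 2) ^ s + B * C₁ * K * R * (1 / 2) ^ s := by
    intro s hs
    rw [Finset.mem_range] at hs
    have h2s : (2 : ℝ) ^ s ≤ 2 ^ n := pow_le_pow_right₀ (by norm_num) (by omega)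
    have h1 := hCL (2 ^ s / K) (by positivity) (by
      rw [div_le_one hK0]
      exact h2s.trans hn1)
    rw [← Finset.sum_filter, Finset.sum_const, nsmul_eq_mul]
    have h2 : (#{w ∈ S | δ w ≤ 2 ^ s / K} : ℝ) ≤
        #{w ∈ FF M | (N8 w).sign = (N8 v).sign ∧ |yy w - yy v - 2 * k * lep| ≤ 2 ^ s / K} := by
      refine Nat.cast_le.2 (Finset.card_le_card fun w hw => ?_)
      rw [Finset.mem_filter] at hw ⊢
      rw [hδ] at hw
      exact ⟨hS hw.1, hsg w hw.1, hw.2⟩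
    have h3 : (0 : ℝ) ≤ B * K / 4 ^ s := by positivity
    refine (mul_le_mul_of_nonneg_right (h2.trans h1) h3).trans ?_
    have e1 : ((4 : ℝ)) ^ s = 2 ^ s * 2 ^ s := by
      rw [← mul_pow]; norm_num
    have e2 : C₁ * (2 ^ s / K * M + R) * (B * K / 4 ^ s) =
        B * C₁ * M * (1 / 2) ^ s + B * C₁ * K * R * ((1 / 2) ^ s * (1 / 2) ^ s) := by
      rw [e1, one_div, inv_pow]
      field_simp
    rw [e2]
    have h4 : ((1 : ℝ) / 2) ^ s ≤ 1 := pow_le_one₀ (by norm_num) (by norm_num)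
    have h5 : 0 ≤ ((1 : ℝ) / 2) ^ s := by positivity
    have h6 : ((1 : ℝ) / 2) ^ s * (1 / 2) ^ s ≤ (1 / 2) ^ s := mul_le_of_le_one_left h5 h4
    have h7 : 0 ≤ B * C₁ * K * R := by positivity
    have := mul_le_mul_of_nonneg_left h6 h7
    linarith
  have hgeo : ∑ s ∈ range (n + 1), ((1 : ℝ) / 2) ^ s ≤ 2 := by
    have h1 : ∀ j : ℕ, ∑ s ∈ range j, ((1 : ℝ) / 2) ^ s = 2 - 2 * (1 / 2) ^ j := by
      intro j
      induction j with
      | zero => simp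
      | succ j ih => rw [Finset.sum_range_succ, ih, pow_succ]; ring
    rw [h1]
    have : (0 : ℝ) ≤ (1 / 2) ^ (n + 1) := by positivity
    linarith
  calc ∑ w ∈ S, (fjk (2 * K) (yy w / (2 * lep) - yy v / (2 * lep))).re
      ≤ ∑ w ∈ S, (∑ s ∈ range (n + 1), (if δ w ≤ 2 ^ s / K then B * K / 4 ^ s else 0) + B / K) :=
        Finset.sum_le_sum hone
    _ = ∑ s ∈ range (n + 1), ∑ w ∈ S, (if δ w ≤ 2 ^ s / K then B * K / 4 ^ s else 0) +
        #S * (B / K) := by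
        rw [Finset.sum_add_distrib, Finset.sum_comm, Finset.sum_const, nsmul_eq_mul]
    _ ≤ ∑ s ∈ range (n + 1), (B * C₁ * M * (1 / 2) ^ s + B * C₁ * K * R * (1 / 2) ^ s) +
        25 * M * B := by
        refine add_le_add (Finset.sum_le_sum hcard) ?_
        have h1 : (#S : ℝ) ≤ 25 * M := (Nat.cast_le.2 (Finset.card_le_card hS)).trans (hFFC M).1
        have h2 : B / K ≤ B := div_le_self (by linarith) hK1
        exact mul_le_mul h1 h2 (by positivity) (by positivity)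
    _ = (B * C₁ * M + B * C₁ * K * R) * ∑ s ∈ range (n + 1), ((1 : ℝ) / 2) ^ s + 25 * M * B := by
        rw [Finset.mul_sum]
        congr 1
        exact Finset.sum_congr rfl fun s _ => by ring
    _ ≤ (B * C₁ * M + B * C₁ * K * R) * 2 + 25 * M * B := by
        refine add_le_add (mul_le_mul_of_nonneg_left hgeo (by positivity)) le_rfl
    _ ≤ B * (2 * C₁ + 25) * (M + K * R) := by
        have : 0 ≤ B * 25 * (K * R) := by positivity
        nlinarith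
    _ = (2 + 2 * lep ^ 2) * (2 * C₁ + 25) * (M + K * R) := by rw [hB]

/-- the weight of CLP -/
private def MVH_R (M : ℕ) (v : ℤ × ℤ) : ℝ := √(M * (Int.gcd v.1 v.2 : ℝ) ^ 2 / nn v)

private theorem MVH_memFF {M : ℕ} {v : ℤ × ℤ} (hv : v ∈ FF M) : Fd v ∧ nn v ≤ M := by
  classical
  unfold FF at hv
  rw [Finset.mem_filter] at hv
  exact hv.2

private theorem MVH_N8 {v : ℤ × ℤ} (hv : Fd v) : N8 v ≠ 0 := by
  intro h
  have h1 := hv.1
  unfold N8 at h
  have h2 : (v.1 ^ 2) % 2 = 1 := by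
    rw [sq, Int.mul_emod, h1]
    norm_num
  omega

private theorem MVH_R_one {M : ℕ} {v : ℤ × ℤ} (hv : v ∈ FF M) : 1 ≤ MVH_R M v := by
  obtain ⟨h1, h2⟩ := MVH_memFF hv
  have h3 : 0 < nn v := by
    unfold nn
    exact Int.natAbs_pos.2 (MVH_N8 h1)
  have h4 : 1 ≤ Int.gcd v.1 v.2 := by
    refine Nat.one_le_iff_ne_zero.2 fun h => ?_
    rw [Int.gcd_eq_zero_iff] at h
    have := h1.1
    rw [h.1] at this
    norm_num at this
  unfold MVH_R
  rw [Real.one_le_sqrt]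
  have h3' : (0 : ℝ) < nn v := by exact_mod_cast h3
  have h2' : (nn v : ℝ) ≤ M := by exact_mod_cast h2
  have h4' : (1 : ℝ) ≤ (Int.gcd v.1 v.2 : ℝ) := by exact_mod_cast h4
  rw [le_div_iff₀ h3', one_mul]
  nlinarith [one_le_pow₀ h4' (n := 2)]

open scoped Classical in
private theorem MVH_row (hFJB : FJB_stmt) (hYYB : YYB_stmt) (hFFC : FFC_stmt) {C₁ : ℝ} (hC₁ : 0 < C₁)
    (hCL : ∀ (M : ℕ) (ρ : ℝ) (k : ℤ), 1 ≤ M → 0 ≤ ρ → ρ ≤ 1 → |k| ≤ 1 → ∀ z ∈ FF M,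
      (#{w ∈ FF M | (N8 w).sign = (N8 z).sign ∧ |yy w - yy z - 2 * k * lep| ≤ ρ} : ℝ) ≤
        C₁ * (ρ * M + √(M * (Int.gcd z.1 z.2 : ℝ) ^ 2 / nn z)))
    (M K : ℕ) (hM : 1 ≤ M) (hK : 1 ≤ K) (v : ℤ × ℤ) (hv : v ∈ FF M)
    (S : Finset (ℤ × ℤ)) (hS : S ⊆ FF M) (hsg : ∀ w ∈ S, (N8 w).sign = (N8 v).sign) :
    ∑ w ∈ S, (fjk (2 * K) (yy w / (2 * lep) - yy v / (2 * lep))).re ≤
      3 * ((2 + 2 * lep ^ 2) * (2 * C₁ + 25)) * ((K + M) * MVH_R M v) := by
  have hl := MVH_lep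
  obtain ⟨hF, -, -⟩ := hFJB (2 * K) (by omega)
  have hR := MVH_R_one hv
  have hM0 : (0 : ℝ) < M := by exact_mod_cast hM
  obtain ⟨F, hFd⟩ : ∃ F : ℤ × ℤ → ℝ, F = fun w =>
    (fjk (2 * K) (yy w / (2 * lep) - yy v / (2 * lep))).re := ⟨_, rfl⟩
  have hF0 : ∀ w, 0 ≤ F w := by
    intro w
    rw [hFd]
    exact (hF _).2.1
  have hθ : ∀ w ∈ FF M, |yy w / (2 * lep)| ≤ 1 / 2 := by
    intro w hw
    have h1 := hYYB w (MVH_memFF hw).1
    rw [abs_div, abs_of_pos (show 0 < 2 * lep by positivity),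
      div_le_div_iff₀ (by positivity) (by norm_num)]
    linarith
  have hone : ∀ w ∈ S, F w ≤ ∑ k ∈ Icc (-1 : ℤ) 1,
      (if |yy w / (2 * lep) - yy v / (2 * lep) - k| ≤ 1 / 2 then F w else 0) := by
    intro w hw
    have hw1 := hθ w (hS hw)
    have hv1 := hθ v hv
    obtain ⟨k, hk, hk2⟩ : ∃ k ∈ Icc (-1 : ℤ) 1,
        |yy w / (2 * lep) - yy v / (2 * lep) - k| ≤ 1 / 2 := by
      rw [abs_le] at hw1 hv1
      by_cases h1 : yy w / (2 * lep) - yy v / (2 * lep) < -(1 / 2)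
      · refine ⟨-1, by decide, ?_⟩
        push_cast
        rw [abs_le]
        constructor <;> linarith
      · by_cases h2 : 1 / 2 < yy w / (2 * lep) - yy v / (2 * lep)
        · refine ⟨1, by decide, ?_⟩
          push_cast
          rw [abs_le]
          constructor <;> linarith
        · refine ⟨0, by decide, ?_⟩
          push_cast
          rw [abs_le]
          constructor <;> linarith
    have h1 := Finset.single_le_sum (f := fun k : ℤ =>
      (if |yy w / (2 * lep) - yy v / (2 * lep) - k| ≤ 1 / 2 then F w else 0)) (fun i _ => by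
        split_ifs
        · exact hF0 w
        · exact le_rfl) hk
    rwa [if_pos hk2] at h1
  have hsum : ∀ k ∈ Icc (-1 : ℤ) 1, ∑ w ∈ S,
      (if |yy w / (2 * lep) - yy v / (2 * lep) - k| ≤ 1 / 2 then F w else 0) ≤
      (2 + 2 * lep ^ 2) * (2 * C₁ + 25) * ((K + M) * MVH_R M v) := by
    intro k hk
    rw [Finset.mem_Icc] at hk
    have hk1 : |k| ≤ 1 := abs_le.2 hk
    rw [← Finset.sum_filter]
    have h1 := MVH_shift hFJB hFFC hC₁ M K hM hK v (MVH_R M v) (by linarith) k hk1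
      (fun ρ h0 h1 => hCL M ρ k hM h0 h1 hk1 v hv)
      (S.filter fun w => |yy w / (2 * lep) - yy v / (2 * lep) - k| ≤ 1 / 2)
      (fun w hw => hS (Finset.mem_filter.1 hw).1)
      (fun w hw => hsg w (Finset.mem_filter.1 hw).1)
      (fun w hw => (Finset.mem_filter.1 hw).2)
    rw [hFd]
    refine h1.trans (mul_le_mul_of_nonneg_left ?_ (by positivity))
    nlinarith
  have h2 : ∑ w ∈ S, F w ≤ 3 * ((2 + 2 * lep ^ 2) * (2 * C₁ + 25) * ((K + M) * MVH_R M v)) := by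
    refine (Finset.sum_le_sum hone).trans ?_
    rw [Finset.sum_comm]
    refine (Finset.sum_le_sum hsum).trans (le_of_eq ?_)
    rw [Finset.sum_const, nsmul_eq_mul]
    have : #(Icc (-1 : ℤ) 1) = 3 := by decide
    rw [this]
    norm_num
  rw [hFd] at h2
  refine h2.trans (le_of_eq ?_)
  ring

open scoped Classical in
theorem MVH (hFJB : FJB_stmt) (hCLP : CLP_stmt) (hTDM : TDM_stmt) (hYYB : YYB_stmt)
    (hFFC : FFC_stmt) : MVH_stmt := by
  intro c
  obtain ⟨C₁, hC₁, hCL⟩ := hCLP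
  obtain ⟨C₂, E, hC₂, hTD⟩ := hTDM (2 * c)
  have hl := MVH_lep
  obtain ⟨Q, hQ⟩ : ∃ Q, Q = 3 * ((2 + 2 * lep ^ 2) * (2 * C₁ + 25)) := ⟨_, rfl⟩
  have hQ0 : 0 < Q := by rw [hQ]; positivity
  refine ⟨8 * Q * C₂, E, by positivity, ?_⟩
  intro M K V α b hM hK hV hb
  have hM0 : (0 : ℝ) < M := by exact_mod_cast hM
  have hK0 : (0 : ℝ) < K := by exact_mod_cast hK
  obtain ⟨a, ha⟩ : ∃ a : ℤ × ℤ → ℂ, a = fun v =>
    b v * Complex.exp (((α * (yy v / (2 * lep)) : ℝ) : ℂ) * Complex.I) := ⟨_, rfl⟩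
  have han : ∀ v, ‖a v‖ = ‖b v‖ := by
    intro v
    rw [ha]
    dsimp only
    rw [norm_mul, Complex.norm_exp_ofReal_mul_I, mul_one]
  have hterm : ∀ (m : ℤ) (v : ℤ × ℤ), b v * Complex.exp (((fr α m * yy v : ℝ) : ℂ) * Complex.I) =
      a v * Complex.exp (((2 * Real.pi * m * (yy v / (2 * lep)) : ℝ) : ℂ) * Complex.I) := by
    intro m v
    rw [ha]
    dsimp only
    rw [mul_assoc, ← Complex.exp_add]
    congr 2
    rw [← add_mul, ← Complex.ofReal_add]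
    congr 2
    unfold fr
    field_simp
  -- one sign
  have hcl : ∀ S : Finset (ℤ × ℤ), S ⊆ FF M → (∀ v ∈ S, ∀ w ∈ S, (N8 w).sign = (N8 v).sign) →
      ∑ m ∈ Icc (-(K : ℤ)) K,
        ‖∑ v ∈ S, a v * Complex.exp (((2 * Real.pi * m * (yy v / (2 * lep)) : ℝ) : ℂ) * Complex.I)‖ ^ 2 ≤
      2 * Q * C₂ * V ^ 2 * (K + M) * M * (1 + Real.log M) ^ E := by
    intro S hS hsg
    refine (MVH_fejer hFJB S (fun v => yy v / (2 * lep)) a K hK).trans ?_
    have h1 : ∀ v ∈ S, ‖a v‖ ^ 2 * ∑ w ∈ S, (fjk (2 * K) (yy w / (2 * lep) - yy v / (2 * lep))).re ≤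
        V ^ 2 * Q * (K + M) * ((#(nn v).divisors : ℝ) ^ (2 * c) *
          √(M * (Int.gcd v.1 v.2 : ℝ) ^ 2 / nn v)) := by
      intro v hv
      have h2 := MVH_row hFJB hYYB hFFC hC₁ hCL M K hM hK v (hS hv) S hS (hsg v hv)
      rw [← hQ] at h2
      have h3 : ‖a v‖ ^ 2 ≤ V ^ 2 * (#(nn v).divisors : ℝ) ^ (2 * c) := by
        rw [han]
        have := pow_le_pow_left₀ (norm_nonneg _) (hb v (hS hv)) 2
        rw [mul_pow, ← pow_mul, mul_comm c 2] at this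
        exact this
      have h4 : 0 ≤ Q * ((K + M) * MVH_R M v) := by
        have := MVH_R_one (hS hv)
        positivity
      refine (mul_le_mul_of_nonneg_left h2 (by positivity)).trans
        ((mul_le_mul_of_nonneg_right h3 h4).trans (le_of_eq ?_))
      unfold MVH_R
      ring
    have h5 : ∑ v ∈ S, ((#(nn v).divisors : ℝ) ^ (2 * c) *
          √(M * (Int.gcd v.1 v.2 : ℝ) ^ 2 / nn v)) ≤ C₂ * M * (1 + Real.log M) ^ E := by
      refine (Finset.sum_le_sum_of_subset_of_nonneg hS fun v _ _ => by positivity).trans ?_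
      exact hTD M hM
    have h6 := Finset.sum_le_sum h1
    rw [← Finset.mul_sum] at h6
    have h7 := mul_le_mul_of_nonneg_left h5 (show 0 ≤ V ^ 2 * Q * (K + M) by positivity)
    have h8 : V ^ 2 * Q * (K + M) * (C₂ * M * (1 + Real.log M) ^ E) =
        Q * C₂ * V ^ 2 * (K + M) * M * (1 + Real.log M) ^ E := by ring
    rw [h8] at h7
    have h9 := h6.trans h7
    have e : 2 * Q * C₂ * V ^ 2 * (K + M) * M * (1 + Real.log M) ^ E =
      2 * (Q * C₂ * V ^ 2 * (K + M) * M * (1 + Real.log M) ^ E) := by ring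
    rw [e]
    exact mul_le_mul_of_nonneg_left h9 (by norm_num)
  have hP := hcl ((FF M).filter fun v => 0 < N8 v) (Finset.filter_subset _ _) (by
    intro v hv w hw
    rw [Finset.mem_filter] at hv hw
    rw [Int.sign_eq_one_of_pos hv.2, Int.sign_eq_one_of_pos hw.2])
  have hN := hcl ((FF M).filter fun v => ¬ 0 < N8 v) (Finset.filter_subset _ _) (by
    intro v hv w hw
    rw [Finset.mem_filter] at hv hw
    have h1 := MVH_N8 (MVH_memFF hv.1).1
    have h2 := MVH_N8 (MVH_memFF hw.1).1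
    rw [Int.sign_eq_neg_one_of_neg (by omega), Int.sign_eq_neg_one_of_neg (by omega)])
  have hfin : ∀ m ∈ Icc (-(K : ℤ)) K,
      ‖∑ v ∈ FF M, b v * Complex.exp (((fr α m * yy v : ℝ) : ℂ) * Complex.I)‖ ^ 2 ≤
      2 * ‖∑ v ∈ (FF M).filter fun v => 0 < N8 v,
        a v * Complex.exp (((2 * Real.pi * m * (yy v / (2 * lep)) : ℝ) : ℂ) * Complex.I)‖ ^ 2 +
      2 * ‖∑ v ∈ (FF M).filter fun v => ¬ 0 < N8 v,
        a v * Complex.exp (((2 * Real.pi * m * (yy v / (2 * lep)) : ℝ) : ℂ) * Complex.I)‖ ^ 2 := by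
    intro m _
    rw [Finset.sum_congr rfl (fun v _ => hterm m v),
      ← Finset.sum_filter_add_sum_filter_not (FF M) (fun v => 0 < N8 v)]
    refine (pow_le_pow_left₀ (norm_nonneg _) (norm_add_le _ _) 2).trans ?_
    nlinarith [sq_nonneg (‖∑ v ∈ (FF M).filter fun v => 0 < N8 v,
        a v * Complex.exp (((2 * Real.pi * m * (yy v / (2 * lep)) : ℝ) : ℂ) * Complex.I)‖ -
      ‖∑ v ∈ (FF M).filter fun v => ¬ 0 < N8 v,
        a v * Complex.exp (((2 * Real.pi * m * (yy v / (2 * lep)) : ℝ) : ℂ) * Complex.I)‖)]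
  refine (Finset.sum_le_sum hfin).trans ?_
  rw [Finset.sum_add_distrib, ← Finset.mul_sum, ← Finset.mul_sum]
  linarith

end Pool.Agent.BP
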