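import Pool.Agent.helper36.BP.SpecR

/-! Project bp (MP_ad8ced_nt), row RLB: lower bound for the rough L series of a Hecke character near the line
`Re s = 1` (after Pool/Agent/helper15/CH/LB.lean and Pool/Agent/helper47/HK/LIP.lean). -/

set_option autoImplicit false

open Finset
open Pool.Agent.FI Pool.Agent.HK
open Pool.Agent.CH (nit rgh ll2)
open Pool.Agent.SK (tr0 Th)

noncomputable section

namespace Pool.Agent.BP

private theorem RLB_rgh_one (y : ℝ) : rgh y 1 :=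
  ⟨one_ne_zero, fun _ hp hd => absurd (Nat.dvd_one.1 hd) hp.one_lt.ne'⟩

private theorem RLB_rgh_mul {y : ℝ} {a b : ℕ} : rgh y (a * b) ↔ rgh y a ∧ rgh y b := by
  constructor
  · rintro ⟨h1, h2⟩
    exact ⟨⟨left_ne_zero_of_mul h1, fun p hp hd => h2 p hp (hd.mul_right b)⟩,
      ⟨right_ne_zero_of_mul h1, fun p hp hd => h2 p hp (hd.mul_left a)⟩⟩
  · rintro ⟨⟨h1, h2⟩, ⟨h3, h4⟩⟩
    refine ⟨mul_ne_zero h1 h3, fun p hp hd => ?_⟩
    rcases hp.dvd_mul.1 hd with h | h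
    · exact h2 p hp h
    · exact h4 p hp h

private theorem RLB_pos {y : ℝ} {g : ℕ → ℂ} {n : ℕ} (h : rgh y n) : rg y g n = g n := by
  unfold rg
  rw [if_pos h]

private theorem RLB_neg {y : ℝ} {g : ℕ → ℂ} {n : ℕ} (h : ¬ rgh y n) : rg y g n = 0 := by
  unfold rg
  rw [if_neg h]

private theorem RLB_CM {y : ℝ} {g : ℕ → ℂ} (hg : CM g) : CM (rg y g) := by
  obtain ⟨h0, h1, hm, hn⟩ := hg
  refine ⟨RLB_neg (fun h => h.1 rfl), ?_, ?_, ?_⟩
  · rw [RLB_pos (RLB_rgh_one y), h1]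
  · intro m n
    by_cases hm' : rgh y m
    · by_cases hn' : rgh y n
      · rw [RLB_pos (RLB_rgh_mul.2 ⟨hm', hn'⟩), RLB_pos hm', RLB_pos hn', hm]
      · rw [RLB_neg (fun h => hn' (RLB_rgh_mul.1 h).2), RLB_neg hn', mul_zero]
    · rw [RLB_neg (fun h => hm' (RLB_rgh_mul.1 h).1), RLB_neg hm', zero_mul]
  · intro n
    by_cases h : rgh y n
    · rw [RLB_pos h]; exact hn n
    · rw [RLB_neg h, norm_zero]; exact zero_le_one

private theorem RLB_Tri {y : ℝ} {k₁ k₂ g₁ g₂ h₁ h₂ : ℕ → ℂ} (h : Tri k₁ k₂ g₁ g₂ h₁ h₂) :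
    Tri (rg y k₁) (rg y k₂) (rg y g₁) (rg y g₂) (rg y h₁) (rg y h₂) := by
  intro p hp
  by_cases hr : rgh y p
  · rw [RLB_pos hr, RLB_pos hr, RLB_pos hr, RLB_pos hr, RLB_pos hr, RLB_pos hr]
    exact h p hp
  · rw [RLB_neg hr, RLB_neg hr, RLB_neg hr, RLB_neg hr, RLB_neg hr, RLB_neg hr]
    exact Or.inr (Or.inr ⟨rfl, rfl, rfl, rfl, rfl, rfl⟩)

private theorem RLB_sum {g h : ℕ → ℂ} (hg : CM g) (hh : CM h) {s : ℂ} (hs : 1 < s.re) :
    LSeriesSummable (cv g h) s := by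
  have h1 : LSeriesSummable g s :=
    LSeriesSummable_of_bounded_of_one_lt_re (m := 1) (fun n _ => hg.2.2.2 n) hs
  have h2 : LSeriesSummable h s :=
    LSeriesSummable_of_bounded_of_one_lt_re (m := 1) (fun n _ => hh.2.2.2 n) hs
  refine (LSeriesSummable_congr s (fun {n} _ => ?_)).mp (h1.convolution h2)
  rw [LSeries.convolution_def]
  rfl

private theorem RLB_deriv {g h : ℕ → ℂ} (hg : CM g) (hh : CM h) {s : ℂ} (hs : 1 < s.re) :
    HasDerivAt (DF (cv g h) 0) (-DF (cv g h) 1 s) s := by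
  have hf0 : (fun n : ℕ => cv g h n * (Real.log n : ℂ) ^ 0) = cv g h := by
    funext n
    rw [pow_zero, mul_one]
  have h1 : LSeries.abscissaOfAbsConv (fun n : ℕ => cv g h n * (Real.log n : ℂ) ^ 0) < s.re := by
    rw [hf0]
    refine lt_of_le_of_lt
      (LSeries.abscissaOfAbsConv_le_of_forall_lt_LSeriesSummable (x := 1) fun y hy => ?_) ?_
    · exact RLB_sum hg hh (by simpa using hy)
    · exact_mod_cast hs
  have h2 := LSeries_hasDerivAt h1
  have h3 : LSeries (LSeries.logMul fun n : ℕ => cv g h n * (Real.log n : ℂ) ^ 0) s =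
      DF (cv g h) 1 s := by
    unfold DF
    congr 1
    funext n
    simp only [LSeries.logMul, pow_zero, mul_one, pow_one, ← Complex.natCast_log]
    ring
  rw [h3] at h2
  exact h2

private theorem RLB_big : ∃ x₀ : ℝ, ∀ x : ℝ, x₀ ≤ x → 2 ≤ x ∧ 1 ≤ CH.dl x ∧ 1 ≤ ll2 x := by
  refine ⟨Real.exp (Real.exp 1), fun x hx => ?_⟩
  have h1 : (1 : ℝ) ≤ Real.exp 1 := by
    have := Real.add_one_le_exp (1 : ℝ)
    linarith
  have h2 : (2 : ℝ) ≤ Real.exp 1 := by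
    have := Real.add_one_le_exp (1 : ℝ)
    linarith
  have h3 : Real.exp 1 ≤ Real.exp (Real.exp 1) := Real.exp_le_exp.2 h1
  have hx0 : 0 < x := lt_of_lt_of_le (Real.exp_pos _) hx
  have hl : Real.exp 1 ≤ Real.log x := by
    rw [Real.le_log_iff_exp_le hx0]; exact hx
  refine ⟨by linarith, ?_, ?_⟩
  · unfold CH.dl
    exact Real.one_le_rpow (by linarith) (by norm_num)
  · unfold ll2
    rw [Real.le_log_iff_exp_le (by linarith)]
    exact hl

theorem RLB (hTFO : TFO_stmt) (hRDB : RDB_stmt) (hFZB : FZB_stmt) : RLB_stmt := by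
  obtain ⟨A₁, C₁, x₁, hC₁, hRD1⟩ := hRDB 1
  obtain ⟨C₂, hC₂, hFZ⟩ := hFZB
  obtain ⟨x₂, hx₂⟩ := RLB_big
  obtain ⟨A, hA⟩ : ∃ A : ℝ, A = 1 + C₁ + 2 * C₂ := ⟨_, rfl⟩
  have hA1 : 1 ≤ A := by rw [hA]; linarith
  have hA0 : 0 < A := by linarith
  obtain ⟨ε, hε⟩ : ∃ ε : ℝ, ε = 1 / (2 * A ^ 2) := ⟨_, rfl⟩
  have hε0 : 0 < ε := by rw [hε]; positivity
  have hε1 : ε ≤ 1 := by
    rw [hε, div_le_one (by positivity)]
    nlinarith [one_le_pow₀ hA1 (n := 2)]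
  have hεA : ε * A = 1 / (2 * A) := by
    rw [hε]; field_simp
  refine ⟨A₁, ε ^ 3 / (2 * A), max x₁ x₂, by positivity, ?_⟩
  intro x hx R k₁ k₂ g₁ g₂ h₁ h₂ hDt σ τ hσ1 hσ2 hτ
  obtain ⟨hk₁, hk₂, hg₁, hg₂, hh₁, hh₂, htri, hk, hHg, hHh⟩ := hDt
  have hxx₁ : x₁ ≤ x := (le_max_left _ _).trans hx
  obtain ⟨hx2, hD1, hl1⟩ := hx₂ x ((le_max_right _ _).trans hx)
  have hlogx : 0 < Real.log x := Real.log_pos (by linarith)
  have hil : 0 < 1 / Real.log x := by positivity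
  obtain ⟨D, hD⟩ : ∃ D, D = CH.dl x := ⟨_, rfl⟩
  obtain ⟨l, hl⟩ : ∃ l, l = ll2 x := ⟨_, rfl⟩
  rw [← hD] at hD1
  rw [← hl] at hl1
  have hl0 : 0 < l := by linarith
  have hD0 : 0 < D := by linarith
  rw [← hl]
  have hgD : ∀ σ' : ℝ, 1 + 1 / Real.log x ≤ σ' → σ' ≤ 2 → ∀ j ≤ 1,
      ‖DF (cv (rg (yx x) g₁) (rg (yx x) g₂)) j ((σ' : ℂ) + τ * Complex.I)‖ ≤
        C₁ * D ^ j * l ^ (j + 2) := by
    intro σ' h1 h2 j hj
    rw [hD, hl]
    exact hRD1 x hxx₁ R g₁ g₂ hg₁ hg₂ hHg σ' τ h1 h2 hτ j hj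
  have hy2 : 2 ≤ yx x := by
    have := Real.add_one_le_exp (CH.dl x)
    rw [← hD] at this
    unfold yx
    rw [← hD]
    linarith
  have hly : Real.log (yx x) = D := by
    unfold yx
    rw [Real.log_exp, hD]
  -- the bound to the right of the line
  have key : ∀ z : ℝ, 1 + 1 / Real.log x ≤ z → z ≤ 2 → ε ^ 4 / (l ^ 14 * D) ≤ z - 1 →
      ε ^ 3 / (A * l ^ 11) ≤
        ‖DF (cv (rg (yx x) g₁) (rg (yx x) g₂)) 0 ((z : ℂ) + τ * Complex.I)‖ := by
    intro z hz1 hz2 hz0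
    have hσ : 1 < z := by linarith
    have h1 := hTFO (rg (yx x) k₁) (rg (yx x) k₂) (rg (yx x) g₁) (rg (yx x) g₂) (rg (yx x) h₁)
      (rg (yx x) h₂) (RLB_CM hk₁) (RLB_CM hk₂) (RLB_CM hg₁) (RLB_CM hg₂) (RLB_CM hh₁) (RLB_CM hh₂)
      (RLB_Tri htri) (z - 1) τ (by linarith)
    have e0 : (1 : ℂ) + ((z - 1 : ℝ) : ℂ) = (z : ℂ) := by push_cast; ring
    have e1 : (z : ℂ) + Complex.I * τ = (z : ℂ) + τ * Complex.I := by ring
    have e2 : (z : ℂ) + 2 * Complex.I * τ = (z : ℂ) + ((2 * τ : ℝ) : ℂ) * Complex.I := by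
      push_cast; ring
    rw [e0, e1, e2] at h1
    have h2 : ‖DF (cv (rg (yx x) k₁) (rg (yx x) k₂)) 0 (z : ℂ)‖ ≤ A * l ^ 14 / ε ^ 4 := by
      refine (hFZ k₁ k₂ hk₁ hk₂ hk (yx x) z hy2 hσ hz2).trans ?_
      rw [hly]
      have h3 : ε ^ 4 / l ^ 14 ≤ (z - 1) * D := by
        have := mul_le_mul_of_nonneg_right hz0 hD0.le
        have h4 : ε ^ 4 / (l ^ 14 * D) * D = ε ^ 4 / l ^ 14 := by field_simp
        linarith
      have h5 : 1 / ((z - 1) * D) ≤ 1 / (ε ^ 4 / l ^ 14) :=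
        div_le_div_of_nonneg_left (by positivity) (by positivity) h3
      have h6 : 1 / (ε ^ 4 / l ^ 14) = l ^ 14 / ε ^ 4 := by field_simp
      have h7 : 1 ≤ l ^ 14 / ε ^ 4 := by
        rw [one_le_div (by positivity)]
        exact (pow_le_one₀ hε0.le hε1).trans (one_le_pow₀ hl1)
      have h8 : C₂ * (1 + 1 / ((z - 1) * D)) ≤ C₂ * (l ^ 14 / ε ^ 4 + l ^ 14 / ε ^ 4) := by
        refine mul_le_mul_of_nonneg_left ?_ hC₂.le
        linarith
      refine h8.trans ?_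
      have h9 : A * l ^ 14 / ε ^ 4 = A * (l ^ 14 / ε ^ 4) := by ring
      rw [h9, ← two_mul, ← mul_assoc]
      refine mul_le_mul_of_nonneg_right ?_ (by positivity)
      rw [hA]; linarith
    have h3 : ‖DF (cv (rg (yx x) h₁) (rg (yx x) h₂)) 0 ((z : ℂ) + ((2 * τ : ℝ) : ℂ) * Complex.I)‖ ≤
        A * l ^ 2 := by
      have hτ2 : |2 * τ| ≤ 2 * R := by
        rw [abs_mul, abs_two]
        linarith
      have h4 := hRD1 x hxx₁ (2 * R) h₁ h₂ hh₁ hh₂ hHh z (2 * τ) hz1 hz2 hτ2 0 (Nat.zero_le _)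
      rw [pow_zero, mul_one, zero_add, ← hl] at h4
      refine h4.trans (mul_le_mul_of_nonneg_right ?_ (by positivity))
      rw [hA]; linarith
    obtain ⟨L, hL⟩ : ∃ L, L = ‖DF (cv (rg (yx x) g₁) (rg (yx x) g₂)) 0 ((z : ℂ) + τ * Complex.I)‖ :=
      ⟨_, rfl⟩
    rw [← hL] at h1 ⊢
    have hL0 : 0 ≤ L := by rw [hL]; exact norm_nonneg _
    have h4 : 1 ≤ (A * l ^ 14 / ε ^ 4) ^ 3 * L ^ 4 * (A * l ^ 2) := by
      refine h1.trans ?_
      gcongr
    have h5 : (A * l ^ 14 / ε ^ 4) ^ 3 * L ^ 4 * (A * l ^ 2) = (A * l ^ 11 / ε ^ 3 * L) ^ 4 := by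
      field_simp
    rw [h5] at h4
    have h6 : 1 ≤ A * l ^ 11 / ε ^ 3 * L := by
      by_contra hcon
      push Not at hcon
      have : (A * l ^ 11 / ε ^ 3 * L) ^ 4 < 1 := pow_lt_one₀ (by positivity) hcon (by norm_num)
      linarith
    rw [div_le_iff₀ (by positivity)]
    have h7 : A * l ^ 11 / ε ^ 3 * L * ε ^ 3 = L * (A * l ^ 11) := by field_simp
    have h8 := mul_le_mul_of_nonneg_right h6 (show 0 ≤ ε ^ 3 by positivity)
    linarith
  have hfin : ε ^ 3 / (2 * A) / l ^ 11 ≤ ε ^ 3 / (A * l ^ 11) := by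
    rw [div_div]
    refine div_le_div_of_nonneg_left (by positivity) (by positivity) ?_
    nlinarith [show 0 < A * l ^ 11 by positivity]
  by_cases hcase : ε ^ 4 / (l ^ 14 * D) ≤ σ - 1
  · exact hfin.trans (key σ hσ1 hσ2 hcase)
  · push Not at hcase
    obtain ⟨δ, hδ⟩ : ∃ δ, δ = ε ^ 4 / (l ^ 14 * D) := ⟨_, rfl⟩
    rw [← hδ] at hcase key
    have hδ0 : 0 < δ := by rw [hδ]; positivity
    have hδ1 : δ ≤ 1 := by
      rw [hδ, div_le_one (by positivity)]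
      have h1 : ε ^ 4 ≤ 1 := pow_le_one₀ hε0.le hε1
      have h2 : 1 ≤ l ^ 14 := one_le_pow₀ hl1
      nlinarith
    have h1 := key (1 + δ) (by linarith) (by linarith) (by linarith)
    obtain ⟨S, hS⟩ : ∃ S : Set ℂ, S = {w : ℂ | w.re ∈ Set.Icc σ (1 + δ) ∧ w.im = τ} := ⟨_, rfl⟩
    have hw : ∀ w : ℂ, w ∈ S → w = (w.re : ℂ) + τ * Complex.I ∧ 1 + 1 / Real.log x ≤ w.re ∧
        w.re ≤ 2 ∧ 1 < w.re := by
      intro w hw
      rw [hS] at hw
      obtain ⟨⟨hw1, hw2⟩, hw3⟩ := hw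
      refine ⟨?_, by linarith, by linarith, by linarith⟩
      rw [← hw3]
      exact (Complex.re_add_im w).symm
    have hconv : Convex ℝ S := by
      rw [hS]
      intro w hw w' hw' a b ha hb hab
      obtain ⟨⟨hw1, hw2⟩, hw3⟩ := hw
      obtain ⟨⟨hw1', hw2'⟩, hw3'⟩ := hw'
      have hre : (a • w + b • w').re = a * w.re + b * w'.re := by simp
      have him : (a • w + b • w').im = a * w.im + b * w'.im := by simp
      have hb' : b = 1 - a := by linarith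
      refine ⟨⟨?_, ?_⟩, ?_⟩
      · rw [hre]; subst hb'; nlinarith
      · rw [hre]; subst hb'; nlinarith
      · rw [him, hw3, hw3', ← add_mul, hab, one_mul]
    have hzS : ((1 + δ : ℝ) : ℂ) + τ * Complex.I ∈ S := by
      rw [hS]
      refine ⟨⟨?_, ?_⟩, ?_⟩
      · simp only [Complex.add_re, Complex.ofReal_re, Complex.mul_re, Complex.I_re, mul_zero,
          Complex.ofReal_im, Complex.I_im, mul_one, sub_zero, add_zero]
        linarith
      · simp only [Complex.add_re, Complex.ofReal_re, Complex.mul_re, Complex.I_re, mul_zero,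
          Complex.ofReal_im, Complex.I_im, mul_one, sub_zero, add_zero]
        exact le_rfl
      · simp
    have hsS : (σ : ℂ) + τ * Complex.I ∈ S := by
      rw [hS]
      refine ⟨⟨?_, ?_⟩, ?_⟩
      · simp only [Complex.add_re, Complex.ofReal_re, Complex.mul_re, Complex.I_re, mul_zero,
          Complex.ofReal_im, Complex.I_im, mul_one, sub_zero, add_zero]
        exact le_rfl
      · simp only [Complex.add_re, Complex.ofReal_re, Complex.mul_re, Complex.I_re, mul_zero,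
          Complex.ofReal_im, Complex.I_im, mul_one, sub_zero, add_zero]
        linarith
      · simp
    have hmv := Convex.norm_image_sub_le_of_norm_hasDerivWithin_le
      (f := DF (cv (rg (yx x) g₁) (rg (yx x) g₂)) 0)
      (f' := fun w => -DF (cv (rg (yx x) g₁) (rg (yx x) g₂)) 1 w)
      (C := C₁ * D * l ^ 3)
      (s := S) (x := ((1 + δ : ℝ) : ℂ) + τ * Complex.I) (y := (σ : ℂ) + τ * Complex.I)
      (fun w hw' => (RLB_deriv (RLB_CM hg₁) (RLB_CM hg₂) (hw w hw').2.2.2).hasDerivWithinAt)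
      (fun w hw' => by
        rw [norm_neg]
        obtain ⟨hw1, hw2, hw3, hw4⟩ := hw w hw'
        have := hgD w.re hw2 hw3 1 le_rfl
        rw [← hw1, pow_one] at this
        exact this)
      hconv hzS hsS
    have hdist : ‖((σ : ℂ) + τ * Complex.I) - (((1 + δ : ℝ) : ℂ) + τ * Complex.I)‖ ≤ δ := by
      have h2 : ((σ : ℂ) + τ * Complex.I) - (((1 + δ : ℝ) : ℂ) + τ * Complex.I) =
          ((σ - (1 + δ) : ℝ) : ℂ) := by
        push_cast
        ring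
      rw [h2, Complex.norm_real, Real.norm_eq_abs, abs_le]
      constructor <;> linarith
    have h3 : ‖DF (cv (rg (yx x) g₁) (rg (yx x) g₂)) 0 ((σ : ℂ) + τ * Complex.I) -
        DF (cv (rg (yx x) g₁) (rg (yx x) g₂)) 0 (((1 + δ : ℝ) : ℂ) + τ * Complex.I)‖ ≤
        A * D * l ^ 3 * δ := by
      refine hmv.trans ?_
      have h4 : C₁ ≤ A := by rw [hA]; linarith
      gcongr
    have h4 : A * D * l ^ 3 * δ = ε ^ 3 / (2 * A) / l ^ 11 := by
      rw [hδ]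
      have h5 : A * D * l ^ 3 * (ε ^ 4 / (l ^ 14 * D)) = (ε * A) * ε ^ 3 / l ^ 11 := by
        field_simp
      rw [h5, hεA]
      field_simp
    have h5 : ε ^ 3 / (A * l ^ 11) = ε ^ 3 / (2 * A) / l ^ 11 + ε ^ 3 / (2 * A) / l ^ 11 := by
      field_simp
      ring
    have h6 := norm_sub_norm_le (DF (cv (rg (yx x) g₁) (rg (yx x) g₂)) 0 (((1 + δ : ℝ) : ℂ) + τ * Complex.I))
      (DF (cv (rg (yx x) g₁) (rg (yx x) g₂)) 0 ((σ : ℂ) + τ * Complex.I))
    rw [norm_sub_rev] at h6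
    linarith

end Pool.Agent.BP
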